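import Pool.Agent.Work.MP_46fa68_h4.OB5

/-!
# MP_46fa68_co: one joint certificate gives a one parameter family (scaling)

From `(al, ph, f, g)` we may use `(c² al, c ph, c f, g)` for every `c ≥ 0`.  The union of the excluded densities is
an interval whose end points are given by one quadratic inequality.
-/

set_option autoImplicit false

open Finset Equiv

namespace Pool.JM

theorem Harm.smul73 {M m n : ℕ} {a : Finset ℕ → ℝ} (h : Harm M m n a) (c : ℝ) :
    Harm M m n (fun B => c * a B) := by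
  intro k hk hkn C hC
  show c * a C = ∑ x ∈ ad C, w C x * (c * a (mv C x))
  rw [h k hk hkn C hC, Finset.mul_sum]
  refine Finset.sum_congr rfl fun x _ => ?_
  ring

theorem G_smul73 {N M : ℕ} (a : Finset ℕ → ℝ) (n : ℕ) (c : ℝ) :
    G N M (fun B => c * a B) n = c • G N M a n := by
  unfold G
  rw [Finset.smul_sum]
  refine Finset.sum_congr rfl fun B _ => ?_
  rw [smul_smul]

theorem Val.smul73 {N M m : ℕ} {a : Finset ℕ → ℝ} {p q : ℝ} (h : Val N M m a p q) {c : ℝ}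
    (hc : 0 ≤ c) : Val N M m (fun B => c * a B) (c * p) (c * q) := by
  intro σ hσ
  rw [G_smul73]
  have h1 := mul_le_mul_of_nonneg_left (h σ hσ) hc
  have e : (c • G N M a m) σ 1 = c * G N M a m σ 1 := rfl
  rw [e]
  refine h1.trans (le_of_eq ?_)
  by_cases h0 : σ = 1
  · rw [if_pos h0, if_pos h0]
    ring
  · rw [if_neg h0, if_neg h0]
    ring

/-- scaling of a certificate -/
theorem Cert.smul {n m M : ℕ} {W1 s11 s12 W2 s22 : ℝ} {al ph f g : Finset ℕ → ℝ}
    (h : Cert n m M W1 s11 s12 W2 s22 al ph f g) {c : ℝ} (hc : 0 ≤ c) :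
    Cert n m M (c ^ 2 * W1) (c ^ 2 * s11) (c * s12) W2 s22 (fun B => c ^ 2 * al B)
      (fun B => c * ph B) (fun B => c * f B) g := by
  obtain ⟨ha1, ha2, hf1, ⟨f0, hf2⟩, hg1, hg2, hg, hal⟩ := h
  refine ⟨ha1.smul73 _, ha2.smul73 (sq_nonneg c), hf1.smul73 _, ⟨c * f0, hf2.smul73 hc⟩, hg1, hg2,
    hg, fun C hC => ?_⟩
  have h1 := mul_le_mul_of_nonneg_left (hal C hC) (sq_nonneg c)
  refine le_of_eq_of_le ?_ h1
  rw [Finset.mul_sum]
  refine Finset.sum_congr rfl fun x _ => ?_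
  ring

/-- the inequalities of all scalings of a joint certificate -/
def JCs (n m : ℕ) (W1 s11 s12 W2 s22 : ℝ) : Prop :=
  ∀ c : ℝ, 0 ≤ c → JC n m (c ^ 2 * W1) (c ^ 2 * s11) (c * s12) W2 s22

theorem JCs_of_cert {n m M : ℕ} (hM : n + 1 < M) (hm : m ≤ n) {W1 s11 s12 W2 s22 : ℝ}
    {al ph f g : Finset ℕ → ℝ} (h : Cert n m M W1 s11 s12 W2 s22 al ph f g) :
    JCs n m W1 s11 s12 W2 s22 := fun _ hc => JC_of_cert hM hm (h.smul hc)

theorem JCs.jc {n m : ℕ} {W1 s11 s12 W2 s22 : ℝ} (h : JCs n m W1 s11 s12 W2 s22) :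
    JC n m W1 s11 s12 W2 s22 := by
  have := h 1 zero_le_one
  simpa only [one_pow, one_mul] using this

/-- the constants may be approached -/
theorem JCs_of_approx {n m : ℕ} {W1 s11 s12 W2 s22 : ℝ}
    (h : ∀ ε : ℝ, 0 < ε → JCs n m W1 (s11 - ε) (s12 - ε) W2 (s22 - ε)) :
    JCs n m W1 s11 s12 W2 s22 := by
  intro c hc
  refine JC_of_approx fun ε hε => ?_
  set K : ℝ := c ^ 2 + c + 1 with hK
  have hK0 : 0 < K := by positivity
  have h1 := h (ε / K) (div_pos hε hK0) c hc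
  intro A hA i j
  have h2 := h1 A hA i j
  set X : ℝ := ((A.filter fun σ => σ i = j).card : ℝ) with hX
  set Y : ℝ := ((A.filter fun σ => σ i ≠ j).card : ℝ) with hY
  have hf : (0 : ℝ) < m.factorial := by exact_mod_cast m.factorial_pos
  have hX0 : 0 ≤ X := Nat.cast_nonneg _
  have hY0 : 0 ≤ Y := Nat.cast_nonneg _
  have b1 : c ^ 2 * (ε / K) ≤ ε := by
    rw [← mul_div_assoc, div_le_iff₀ hK0]
    nlinarith
  have b2 : c * (ε / K) ≤ ε := by
    rw [← mul_div_assoc, div_le_iff₀ hK0]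
    nlinarith [sq_nonneg c]
  have b3 : ε / K ≤ ε := by
    rw [div_le_iff₀ hK0]
    nlinarith [sq_nonneg c]
  refine h2.trans (sub_le_sub_left (div_le_div_of_nonneg_right ?_ hf.le) _)
  have e1 : (c ^ 2 * s11 - ε) * X ^ 2 ≤ c ^ 2 * (s11 - ε / K) * X ^ 2 :=
    mul_le_mul_of_nonneg_right (by rw [mul_sub]; linarith) (sq_nonneg X)
  have e2 : 2 * (c * s12 - ε) * X * Y ≤ 2 * (c * (s12 - ε / K)) * X * Y := by
    have : (c * s12 - ε) ≤ c * (s12 - ε / K) := by rw [mul_sub]; linarith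
    have := mul_le_mul_of_nonneg_right this (mul_nonneg hX0 hY0)
    linarith
  have e3 : (s22 - ε) * Y ^ 2 ≤ (s22 - ε / K) * Y ^ 2 :=
    mul_le_mul_of_nonneg_right (by linarith) (sq_nonneg Y)
  linarith

/-- **All scalings from one-bead functions** (same hypotheses as `JC_of_obf` of helper4).  `bA`, `bF`, `bG` are overrides (on the levels `n`, `n + 1`) whose kernels are at most
`dA`, `dF`, `dG`. -/
theorem JCs_of_obf {n m t L p0 : ℕ} (hn : n + 1 = m + (t + 1)) (hm : 2 ≤ m) (hL : 2 ≤ L)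
    (vA vF vG : ℕ → ℕ → ℝ)
    (hvA : ∀ q p, p0 ≤ p → vA q p = 0) (hvF : ∀ q p, p0 ≤ p → vF q p = 0)
    (hvG : ∀ q p, p0 ≤ p → vG q p = 0)
    (hA0 : sRo m p0 (vA 0) = 0) (hF0 : sRo m p0 (vF 0) = 0) (hG0 : sRo m p0 (vG 0) = 0)
    (W1 W2 dA dF dG : ℝ)
    (h : ∃ A₀ : ℕ, ∀ A, A₀ ≤ A → ∃ K : ℕ, A + (t + 1) + m + 2 ≤ K ∧ n + 1 < K ∧
      ∃ bA bF bG ph : Finset ℕ → ℝ,
        (∀ σ : Perm (Fin (n + 1)), Sn m σ → G (n + 1) K (hx K n bA) m σ 1 ≤ dA) ∧
        (∀ σ : Perm (Fin (n + 1)), Sn m σ → G (n + 1) K (hx K (n + 1) bF) m σ 1 ≤ dF) ∧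
        (∀ σ : Perm (Fin (n + 1)), Sn m σ → G (n + 1) K (hx K (n + 1) bG) m σ 1 ≤ dG) ∧
        (∀ B ∈ Lv K (n + 1), 0 < W2 - obf (t + 1) m K 1 L A vG B + bG B) ∧
        (∀ C ∈ Lv K n, ∑ x ∈ ad C, w C x *
          ((bF (mv C x) - obf (t + 1) m K 1 L A vF (mv C x) - ph C) ^ 2 /
            (W2 - obf (t + 1) m K 1 L A vG (mv C x) + bG (mv C x))) ≤
          W1 - obf t m K 1 L A vA C + bA C)) :
    JCs n m W1 (sRw m p0 (vA 1) - dA * m.factorial) (sRw m p0 (vF 1) - dF * m.factorial) W2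
      (sRw m p0 (vG 1) - dG * m.factorial) := by
  obtain ⟨A₀, hh⟩ := h
  refine JCs_of_approx fun ε hε => ?_
  have hf : (0 : ℝ) < m.factorial := by exact_mod_cast m.factorial_pos
  -- choose `A`
  have tA := (otl_tendsto t 1 L p0 vA).eventually (gt_mem_nhds (show (0 : ℝ) < ε / m.factorial by positivity))
  have tF := (otl_tendsto (t + 1) 1 L p0 vF).eventually
    (gt_mem_nhds (show (0 : ℝ) < ε / m.factorial by positivity))
  have tG := (otl_tendsto (t + 1) 1 L p0 vG).eventually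
    (gt_mem_nhds (show (0 : ℝ) < ε / m.factorial by positivity))
  obtain ⟨A, hA⟩ := (((tA.and tF).and tG).and
    (Filter.eventually_ge_atTop (A₀ + p0))).exists
  obtain ⟨⟨⟨eA, eF⟩, eG⟩, hAA⟩ := hA
  have mul_lt : ∀ z : ℝ, z < ε / m.factorial → z * m.factorial ≤ ε := fun z hz => by
    rw [lt_div_iff₀ hf] at hz
    exact hz.le
  obtain ⟨K, hK, hK1, bA, bF, bG, ph, hbA, hbF, hbG, hpos, hvar⟩ := hh A (by omega)
  -- the functions
  have e1 : n = m + t := by omega
  have VA := Val_obf (N := n + 1) (K := K) (A := A) (t := t) (by omega) hK1 hm hL (by omega) hvA hA0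
    (by omega) W1
  have VF := Val_obf (N := n + 1) (K := K) (A := A) (t := t + 1) (by omega) hK1 hm hL (by omega)
    hvF hF0 (by omega) 0
  have VG := Val_obf (N := n + 1) (K := K) (A := A) (t := t + 1) (by omega) hK1 hm hL (by omega)
    hvG hG0 (by omega) W2
  rw [← e1] at VA
  rw [show m + (t + 1) = n + 1 by omega] at VF VG
  have VA' := Val_add VA hbA
  have VF' := Val_add VF hbF
  have VG' := Val_add VG hbG
  have mono : ∀ {a : Finset ℕ → ℝ} {p q q' : ℝ}, Val (n + 1) K m a p q → q' ≤ q →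
      Val (n + 1) K m a p q' := fun {a p q q'} hv hq σ hσ => (hv σ hσ).trans (by
        have := div_le_div_of_nonneg_right hq hf.le
        linarith)
  set al : Finset ℕ → ℝ := hx K n (fun B => (W1 - obf t m K 1 L A vA B) + bA B) with hal
  set f : Finset ℕ → ℝ := hx K (n + 1) (fun B => (0 - obf (t + 1) m K 1 L A vF B) + bF B) with hfd
  set g : Finset ℕ → ℝ := hx K (n + 1) (fun B => (W2 - obf (t + 1) m K 1 L A vG B) + bG B) with hgd
  refine JCs_of_cert hK1 (by omega) (al := al) (ph := ph) (f := f) (g := g) ⟨Harm_hx _ _ _, ?_,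
    Harm_hx _ _ _, ⟨0, ?_⟩, Harm_hx _ _ _, ?_, ?_, ?_⟩
  · refine mono (Val_congr VA' fun C _ => ?_) ?_
    · rw [hal, hx_add]
    · have := mul_lt _ eA
      linarith
  · refine mono (Val_congr VF' fun C _ => ?_) ?_
    · rw [hfd, hx_add]
    · have := mul_lt _ eF
      linarith
  · refine mono (Val_congr VG' fun C _ => ?_) ?_
    · rw [hgd, hx_add]
    · have := mul_lt _ eG
      linarith
  · intro B hB
    rw [hgd, hx_top _ hB]
    exact hpos B hB
  · intro C hC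
    rw [hal, hx_top _ hC]
    refine le_of_eq_of_le ?_ (hvar C hC)
    refine sum_congr rfl fun x hx => ?_
    rw [hfd, hgd, hx_top _ (mv_mem hC hx), hx_top _ (mv_mem hC hx)]
    congr 3
    ring

/-- exclusion of an interval, one certificate per density -/
theorem excl_of_points {n m : ℕ} {θ l r : ℝ} (hm : m ≤ n + 1) (hθ : 0 < θ) (hl0 : 0 ≤ l)
    (hr1 : r ≤ 1)
    (h : ∀ p : ℝ, l ≤ p → p ≤ r → ∃ W1 s11 s12 W2 s22 : ℝ, JC n m W1 s11 s12 W2 s22 ∧
      0 ≤ W1 ∧ 0 ≤ W2 ∧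
      W1 * p + W2 * (1 - p) <
        θ * (s11 * p ^ 2 + 2 * s12 * p * (1 - p) + s22 * (1 - p) ^ 2)) :
    Excl (n + 1) (n + 1 - m) θ l r := by
  intro A hA hc x y ⟨h1, h2⟩
  have hf : (0 : ℝ) < m.factorial := by exact_mod_cast m.factorial_pos
  rw [show n + 1 - (n + 1 - m) = m by omega] at hc
  have hcard : ((A.filter fun σ => σ x = y).card : ℝ) + ((A.filter fun σ => σ x ≠ y).card : ℝ) =
      A.card := by
    have := Finset.card_filter_add_card_filter_not (s := A) (fun σ => σ x = y)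
    exact_mod_cast this
  have e0 : ((Pool.EG.thr A x y).card : ℝ) = ((A.filter fun σ => σ x = y).card : ℝ) := rfl
  rw [e0] at h1 h2
  have hS0' : (0 : ℝ) < A.card := lt_of_lt_of_le (by positivity) hc
  obtain ⟨W1, s11, s12, W2, s22, hJC, hW1, hW2, hmain⟩ :=
    h (((A.filter fun σ => σ x = y).card : ℝ) / A.card) (by rw [le_div_iff₀ hS0']; exact h1)
      (by rw [div_le_iff₀ hS0']; exact h2)
  have hJ := hJC A hA x y
  set X : ℝ := ((A.filter fun σ => σ x = y).card : ℝ) with hX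
  set Y : ℝ := ((A.filter fun σ => σ x ≠ y).card : ℝ) with hY
  set S : ℝ := (A.card : ℝ) with hS
  set p : ℝ := X / S with hp
  have hXp : X = p * S := by rw [hp]; field_simp
  have hYp : Y = (1 - p) * S := by
    have : Y = S - X := by linarith
    rw [this, hXp]; ring
  have hlp : l ≤ p := by rw [hp, le_div_iff₀ hS0']; exact h1
  have hpr : p ≤ r := by rw [hp, div_le_iff₀ hS0']; exact h2
  set q : ℝ := s11 * p ^ 2 + 2 * s12 * p * (1 - p) + s22 * (1 - p) ^ 2 with hq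
  set Lp : ℝ := W1 * p + W2 * (1 - p) with hLp
  have hp0 : 0 ≤ p := hl0.trans hlp
  have hp1 : p ≤ 1 := hpr.trans hr1
  have hL0 : 0 ≤ Lp := by
    rw [hLp]
    have := mul_nonneg hW1 hp0
    have := mul_nonneg hW2 (by linarith : 0 ≤ 1 - p)
    linarith
  have hq0 : 0 < q := by
    by_contra hneg
    rw [not_lt] at hneg
    have : θ * q ≤ 0 := mul_nonpos_of_nonneg_of_nonpos hθ.le hneg
    linarith
  have e2 : W1 * X + W2 * Y = S * Lp := by rw [hXp, hYp, hLp]; ring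
  have e3 : s11 * X ^ 2 + 2 * s12 * X * Y + s22 * Y ^ 2 = S * (S * q) := by
    rw [hXp, hYp, hq]; ring
  rw [e2, e3] at hJ
  have h10 : S * (S * q) / m.factorial ≤ S * Lp := by linarith
  rw [div_le_iff₀ hf] at h10
  have h11 : S * q ≤ Lp * m.factorial := by
    have : S * (S * q) ≤ S * (Lp * m.factorial) := by linarith
    exact le_of_mul_le_mul_left this hS0'
  have h12 : θ * m.factorial * q ≤ S * q := mul_le_mul_of_nonneg_right hc hq0.le
  have h13 : θ * q * m.factorial ≤ Lp * m.factorial := by linarith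
  have h14 := le_of_mul_le_mul_right h13 hf
  linarith

/-- a quadratic `a + b d - c d²` (`c ≥ 0`) positive at both ends is positive between them -/
theorem quad_pos73 {a b c l r p : ℝ} (hc : 0 ≤ c) (hl : 0 < a + b * l - c * l ^ 2)
    (hr : 0 < a + b * r - c * r ^ 2) (h1 : l ≤ p) (h2 : p ≤ r) :
    0 < a + b * p - c * p ^ 2 := by
  rcases eq_or_lt_of_le (h1.trans h2) with heq | hlt
  · have : p = l := le_antisymm (by rw [heq]; exact h2) h1
    rw [this]
    exact hl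
  · have e1 : (r - l) * (a + b * p - c * p ^ 2) = (r - p) * (a + b * l - c * l ^ 2) +
        (p - l) * (a + b * r - c * r ^ 2) + c * ((p - l) * (r - p) * (r - l)) := by ring
    have h5 : 0 ≤ c * ((p - l) * (r - p) * (r - l)) :=
      mul_nonneg hc (mul_nonneg (mul_nonneg (by linarith) (by linarith)) (by linarith))
    have h6 : 0 < (r - l) * (a + b * p - c * p ^ 2) := by
      rw [e1]
      rcases eq_or_lt_of_le h2 with h7 | h7
      · have : 0 < (p - l) * (a + b * r - c * r ^ 2) := mul_pos (by linarith) hr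
        have : 0 ≤ (r - p) * (a + b * l - c * l ^ 2) := mul_nonneg (by linarith) hl.le
        linarith
      · have : 0 < (r - p) * (a + b * l - c * l ^ 2) := mul_pos (by linarith) hl
        have : 0 ≤ (p - l) * (a + b * r - c * r ^ 2) := mul_nonneg (by linarith) hr.le
        linarith
    by_contra hneg
    rw [not_lt] at hneg
    have := mul_nonpos_of_nonneg_of_nonpos (show (0 : ℝ) ≤ r - l by linarith) hneg
    linarith

/-- **the densities excluded by all scalings of one certificate** -/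
theorem JCs.excl {n m : ℕ} {W1 s11 s12 W2 s22 θ l r : ℝ} (h : JCs n m W1 s11 s12 W2 s22)
    (hm : m ≤ n + 1) (hθ : 0 < θ) (hl0 : 0 ≤ l) (hr1 : r ≤ 1) (hW1 : 0 ≤ W1) (hW2 : 0 ≤ W2)
    (hs12 : 0 ≤ s12) (hconc : s11 * s22 ≤ s12 ^ 2)
    (hWl : 0 < W1 - θ * s11 * l) (hWr : 0 < W1 - θ * s11 * r)
    (hl : (W1 - θ * s11 * l) * (W2 - θ * s22 * (1 - l)) < θ ^ 2 * s12 ^ 2 * (l * (1 - l)))
    (hr : (W1 - θ * s11 * r) * (W2 - θ * s22 * (1 - r)) < θ ^ 2 * s12 ^ 2 * (r * (1 - r))) :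
    Excl (n + 1) (n + 1 - m) θ l r := by
  refine excl_of_points hm hθ hl0 hr1 fun p hlp hpr => ?_
  have hp0 : 0 ≤ p := hl0.trans hlp
  have hp1 : p ≤ 1 := hpr.trans hr1
  -- positivity of `W1 - θ s11 p`
  have hWp : 0 < W1 - θ * s11 * p := by
    have := quad_pos73 (a := W1) (b := -(θ * s11)) (c := 0) le_rfl (by linarith) (by linarith)
      hlp hpr
    linarith
  -- the quadratic inequality at `p`
  have hqp : (W1 - θ * s11 * p) * (W2 - θ * s22 * (1 - p)) < θ ^ 2 * s12 ^ 2 * (p * (1 - p)) := by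
    have := quad_pos73 (a := -(W1 * (W2 - θ * s22)))
      (b := θ ^ 2 * s12 ^ 2 + θ * s11 * (W2 - θ * s22) - W1 * (θ * s22))
      (c := θ ^ 2 * (s12 ^ 2 - s11 * s22)) (l := l) (r := r) (p := p)
      (mul_nonneg (sq_nonneg θ) (by linarith)) (by nlinarith) (by nlinarith) hlp hpr
    nlinarith
  set D : ℝ := W1 - θ * s11 * p with hD
  set c : ℝ := θ * s12 * (1 - p) / D with hc
  have hc0 : 0 ≤ c := div_nonneg (mul_nonneg (mul_nonneg hθ.le hs12) (by linarith)) hWp.le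
  have hcD : c * D = θ * s12 * (1 - p) := by
    rw [hc]
    field_simp
  refine ⟨c ^ 2 * W1, c ^ 2 * s11, c * s12, W2, s22, h c hc0, mul_nonneg (sq_nonneg c) hW1, hW2, ?_⟩
  -- `p < 1`
  have hp1' : p < 1 := by
    rcases eq_or_lt_of_le hp1 with h1 | h1
    · exfalso
      rw [h1] at hqp
      have : 0 ≤ D * W2 := mul_nonneg hWp.le hW2
      have e : θ ^ 2 * s12 ^ 2 * (1 * (1 - 1)) = (0 : ℝ) := by ring
      rw [e] at hqp
      have e2 : W2 - θ * s22 * (1 - 1) = W2 := by ring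
      rw [e2] at hqp
      linarith
    · exact h1
  have key : D * (c ^ 2 * W1 * p + W2 * (1 - p) -
      θ * (c ^ 2 * s11 * p ^ 2 + 2 * (c * s12) * p * (1 - p) + s22 * (1 - p) ^ 2)) =
      -((1 - p) * (θ ^ 2 * s12 ^ 2 * (p * (1 - p)) - D * (W2 - θ * s22 * (1 - p)))) := by
    have e : c ^ 2 * W1 * p + W2 * (1 - p) -
        θ * (c ^ 2 * s11 * p ^ 2 + 2 * (c * s12) * p * (1 - p) + s22 * (1 - p) ^ 2) =
        c * (c * D) * p - 2 * (c * (θ * s12 * (1 - p))) * p +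
          (1 - p) * (W2 - θ * s22 * (1 - p)) := by
      rw [hD]
      ring
    rw [e, hcD]
    have e3 : D * (c * (θ * s12 * (1 - p)) * p - 2 * (c * (θ * s12 * (1 - p))) * p +
        (1 - p) * (W2 - θ * s22 * (1 - p))) =
        -((c * D) * (θ * s12 * (1 - p)) * p) + D * ((1 - p) * (W2 - θ * s22 * (1 - p))) := by ring
    rw [e3, hcD]
    ring
  have h7 : D * (c ^ 2 * W1 * p + W2 * (1 - p) -
      θ * (c ^ 2 * s11 * p ^ 2 + 2 * (c * s12) * p * (1 - p) + s22 * (1 - p) ^ 2)) < 0 := by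
    rw [key]
    have : 0 < (1 - p) * (θ ^ 2 * s12 ^ 2 * (p * (1 - p)) - D * (W2 - θ * s22 * (1 - p))) :=
      mul_pos (by linarith) (by linarith)
    linarith
  by_contra hneg
  rw [not_lt] at hneg
  have := mul_nonneg hWp.le (sub_nonneg.2 hneg)
  linarith

end Pool.JM
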